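import Pool.Agent.H732R3.ExactE
import Pool.Agent.H362R2.CM.Final

/-!
# Near every pattern there is a part of a bounded pattern of isolated consecutive primes

For every `k` there are `C` and `M` such that for every vector `v` of `k` integers there are a set `H` of
at most `M` integers containing `0` and distinct nonzero elements `a_1, ..., a_k` of `H` with
`|a_i - v_i| ≤ C`, such that for every `R` there are infinitely many `n` for which the primes within
distance `R` of `n` are exactly the numbers `n + h`, `h ∈ H`, `|h| ≤ R`.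

The coloured Maynard-Tao theorem (`Pool.Agent.H362R2.CM.Final`) is combined with the density
Hales-Jewett theorem (`Pool.Agent.Helper903.DHJ`), both of the starting files.
-/

namespace Pool.Agent.H732R3.Old.NearEveryPattern

theorem result (k : ℕ) : ∃ C M : ℕ, ∀ v : Fin k → ℤ,
    ∃ (H : Finset ℤ) (a : Fin k → ℤ), H.card ≤ M ∧ 0 ∈ H ∧ Function.Injective a ∧
      (∀ i, a i ∈ H ∧ a i ≠ 0 ∧ |a i - v i| ≤ C) ∧
      ∀ R : ℕ, {n : ℕ | ∀ y : ℤ, |y| ≤ R →
        ((∃ p : ℕ, p.Prime ∧ (p : ℤ) = n + y) ↔ y ∈ H)}.Infinite :=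
  Pool.Agent.H732R3.ExactE.exact_pattern Pool.Agent.H362R2.CM.quarter k

end Pool.Agent.H732R3.Old.NearEveryPattern
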